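import Mathlib
import Pool.Agent.H753R3.SC.Stmts

set_option autoImplicit false

namespace Pool.Agent.H897R.SC

open Set Pool.Agent.H753R3.SC

theorem taskB2_core (hA : TaskA) (P : Type) [PartialOrder P] [TopologicalSpace P]
    [Topology.IsScott P Set.univ]
    (hd : ∀ d : Set P, d.Nonempty → DirectedOn (· ≤ ·) d → ∃ x, IsLUB d x)
    (hlc : LocallyCompactSpace P) (B : Set P) (hB : ∀ x, (B ∩ Iic x).Countable)
    (hb : ∀ V : Set P, IsOpen V → ∀ x ∈ V, ∃ b ∈ B ∩ V, b ≤ x)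
    (K V : Set P) (hK : IsCompact K) (hV : IsOpen V) (hKV : K ⊆ V) :
    ∃ H : Finset P, (∀ h ∈ H, h ∈ B ∩ V) ∧ ∀ x ∈ K, ∃ h ∈ H, h ≤ x := by
  classical
  obtain ⟨L, hL, hKL, hLV⟩ := exists_compact_between hK hV hKV
  let F : P → Set P := fun z => B ∩ V ∩ Iic z
  -- maximal disjoint family
  obtain ⟨Z, hZ⟩ : ∃ Z, Maximal (fun Z : Set P => Z ⊆ L ∧ Z.PairwiseDisjoint F) Z := by
    refine zorn_subset {Z : Set P | Z ⊆ L ∧ Z.PairwiseDisjoint F} ?_
    intro c hc hchain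
    refine ⟨⋃₀ c, ⟨?_, ?_⟩, fun s hs => subset_sUnion_of_mem hs⟩
    · exact sUnion_subset fun s hs => (hc hs).1
    · exact (pairwiseDisjoint_sUnion hchain.directedOn).mpr fun s hs => (hc hs).2
  obtain ⟨⟨hZL, hZd⟩, hmax⟩ := hZ
  have hZfin : Z.Finite := by
    by_contra hinf
    have hinf' : Z.Infinite := hinf
    let z := hinf'.natEmbedding
    obtain ⟨c, hcV, hc⟩ := hA P hd L V hL hV hLV (fun n => (z n : P)) (fun n => hZL (z n).2)
    obtain ⟨n1, -, h1⟩ := hc 0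
    obtain ⟨n2, hn2, h2⟩ := hc (n1 + 1)
    obtain ⟨b, hbB, hbc⟩ := hb V hV c hcV
    have hne : (z n1 : P) ≠ z n2 := by
      intro h
      have := z.injective (Subtype.ext h)
      omega
    have := hZd (z n1).2 (z n2).2 hne
    have e1 : b ∈ F (z n1 : P) := ⟨hbB, hbc.trans h1⟩
    have e2 : b ∈ F (z n2 : P) := ⟨hbB, hbc.trans h2⟩
    exact Set.disjoint_left.mp this e1 e2
  have hFc : ∀ z, (F z).Countable := fun z =>
    (hB z).mono (fun b hb => (⟨hb.1.1, hb.2⟩ : b ∈ B ∩ Iic z))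
  set H0 : Set P := ⋃ z ∈ Z, F z with hH0
  have hH0c : H0.Countable := hZfin.countable.biUnion fun z _ => hFc z
  have hH0L : ∀ x ∈ L, ∃ h ∈ H0, h ≤ x := by
    intro x hx
    by_cases hxZ : x ∈ Z
    · obtain ⟨b, hbB, hbx⟩ := hb V hV x (hLV hx)
      exact ⟨b, mem_biUnion hxZ ⟨hbB, hbx⟩, hbx⟩
    · have h1 : ¬ (insert x Z).PairwiseDisjoint F := by
        intro h
        exact hxZ (hmax ⟨insert_subset hx hZL, h⟩ (subset_insert x Z) (mem_insert x Z))
      rw [pairwiseDisjoint_insert_of_notMem hxZ] at h1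
      push Not at h1
      obtain ⟨z, hz, hdis⟩ := h1 hZd
      rw [Set.not_disjoint_iff] at hdis
      obtain ⟨h, hh1, hh2⟩ := hdis
      exact ⟨h, mem_biUnion hz hh2, hh1.2⟩
  have hH0BV : ∀ h ∈ H0, h ∈ B ∩ V := by
    intro h hh
    rw [hH0] at hh
    simp only [mem_iUnion] at hh
    obtain ⟨z, _, hz⟩ := hh
    exact hz.1
  rcases L.eq_empty_or_nonempty with hLe | ⟨x0, hx0⟩
  · refine ⟨∅, by simp, fun x hx => ?_⟩
    have := interior_subset (hKL hx)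
    rw [hLe] at this
    exact absurd this (notMem_empty x)
  obtain ⟨h0, hh0, -⟩ := hH0L x0 hx0
  obtain ⟨e, he⟩ := hH0c.exists_eq_range ⟨h0, hh0⟩
  by_contra hno
  push Not at hno
  have hz : ∀ k : ℕ, ∃ z ∈ K, ∀ i ≤ k, ¬ e i ≤ z := by
    intro k
    obtain ⟨z, hzK, hz⟩ := hno ((Finset.range (k + 1)).image e) (fun h hh => by
      obtain ⟨i, _, rfl⟩ := Finset.mem_image.mp hh
      exact hH0BV _ (he ▸ mem_range_self i))
    exact ⟨z, hzK, fun i hi => hz _ (Finset.mem_image_of_mem e (Finset.mem_range.mpr (by omega)))⟩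
  choose z hzK hz using hz
  obtain ⟨c, hcL, hc⟩ := hA P hd K (interior L) hK isOpen_interior hKL z hzK
  obtain ⟨h, hh, hhc⟩ := hH0L c (interior_subset hcL)
  rw [he] at hh
  obtain ⟨i, rfl⟩ := hh
  obtain ⟨k, hk, hck⟩ := hc i
  exact hz k i hk (hhc.trans hck)

end Pool.Agent.H897R.SC
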