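import Pool.Agent.H897R.SC.B2
import Pool.Agent.H753R3.SC.Stmts3

set_option autoImplicit false

namespace Pool.Agent.H897R.SC

open Set Pool.Agent.H753R3.SC

theorem taskB2 : TaskA → TaskB2 := by
  intro hA P _ _ _ hd hlc B hB hb K V hK hV hKV
  obtain ⟨H, h1, h2⟩ := taskB2_core hA P hd hlc B hB hb K V hK hV hKV
  exact ⟨H, fun h hh => (h1 h hh).2, h2⟩

end Pool.Agent.H897R.SC
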